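import Pool.Agent.Helper45.FG.St

/-!
# Module QUA of project FG: candidates of a field of degree at most two
-/

set_option autoImplicit false

namespace Pool.Agent.Helper62.FG

open Pool.Agent.Helper45.FG

private lemma int_of_fixed (K : IntermediateField ℚ ℝ) [FiniteDimensional ℚ K] [IsGalois ℚ K]
    (y : K) (hy : IsIntegral ℤ y) (hf : ∀ t : K ≃ₐ[ℚ] K, t y = y) : ∃ m : ℤ, (y : ℝ) = m := by
  have h1 := (IsGalois.mem_bot_iff_fixed (F := ℚ) (E := K) y).mpr hf
  rw [IntermediateField.mem_bot] at h1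
  obtain ⟨q, hq⟩ := h1
  rw [← hq] at hy
  have h2 : IsIntegral ℤ q :=
    (isIntegral_algebraMap_iff (algebraMap ℚ K).injective).mp hy
  obtain ⟨m, hm⟩ := IsIntegrallyClosed.isIntegral_iff.mp h2
  refine ⟨m, ?_⟩
  rw [← hq, ← hm]
  simp

private lemma aux1 (K : IntermediateField ℚ ℝ) (y : K) (h : (y : ℝ) = 0) : y = 0 := by
  exact_mod_cast h

/-- The case of degree two. -/
private lemma two (K : IntermediateField ℚ ℝ) [FiniteDimensional ℚ K] [IsGalois ℚ K]
    (s : K ≃ₐ[ℚ] K) (hs1 : s ≠ 1) (hall : ∀ t : K ≃ₐ[ℚ] K, t = 1 ∨ t = s) :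
    ∃ (k N : ℕ) (ω δ : ℝ), 1 ≤ N ∧ 0 < ω ∧ 0 < δ ∧ ω ^ 2 = k * ω + N ∧ δ ^ 2 = k ^ 2 + 4 * N ∧
      ∀ β : K, Cand K β → ∃ a b c : ℕ, (β : ℝ) = a + b * δ + c * ω := by
  classical
  have hss : ∀ x : K, s (s x) = x := by
    intro x
    rcases hall (s * s) with h | h
    · have := congrArg (fun t : K ≃ₐ[ℚ] K => t x) h
      simpa using this
    · exact absurd (mul_left_cancel (a := s) (h.trans (mul_one s).symm)) hs1
  have hfix : ∀ y : K, IsIntegral ℤ y → s y = y → ∃ m : ℤ, (y : ℝ) = m := by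
    intro y hy hsy
    refine int_of_fixed K y hy fun t => ?_
    rcases hall t with h | h
    · rw [h]; rfl
    · rw [h]; exact hsy
  have hint : ∀ y : K, IsIntegral ℤ y → IsIntegral ℤ (s y) := by
    intro y hy
    exact hy.map (s.toAlgHom.restrictScalars ℤ)
  -- squares of the elements of the subgroup
  have hsq : ∀ w : K, IsIntegral ℤ w → ∃ n : ℕ, ((w - s w : K) : ℝ) ^ 2 = n := by
    intro w hw
    obtain ⟨m, hm⟩ := hfix ((w - s w) ^ 2) ((hw.sub (hint w hw)).pow 2) (by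
      rw [map_pow, map_sub, hss]
      ring)
    have hm' : ((w - s w : K) : ℝ) ^ 2 = m := by
      rw [← hm]
      push_cast
      ring
    have h0 : (0 : ℝ) ≤ (m : ℝ) := by rw [← hm']; positivity
    have h0' : 0 ≤ m := by exact_mod_cast h0
    refine ⟨m.toNat, ?_⟩
    rw [hm']
    have : ((m.toNat : ℤ) : ℝ) = (m : ℝ) := by rw [Int.toNat_of_nonneg h0']
    exact_mod_cast this.symm
  -- positive members exist
  have hex : ∃ n : ℕ, ∃ w : K, IsIntegral ℤ w ∧ 0 < ((w - s w : K) : ℝ) ∧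
      ((w - s w : K) : ℝ) ^ 2 = n := by
    have hx : ∃ x : K, s x ≠ x := by
      by_contra hc
      push Not at hc
      exact hs1 (AlgEquiv.ext hc)
    obtain ⟨x, hx⟩ := hx
    have halg : IsAlgebraic ℤ x := by
      have : IsAlgebraic ℚ x := Algebra.IsAlgebraic.isAlgebraic x
      exact (IsFractionRing.isAlgebraic_iff ℤ ℚ K).mpr this
    obtain ⟨y, hy0, hyx⟩ := halg.exists_integral_multiple
    have hne : ((y • x - s (y • x) : K) : ℝ) ≠ 0 := by
      intro h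
      have h2 := aux1 K _ h
      rw [map_zsmul, ← smul_sub, smul_eq_zero] at h2
      rcases h2 with h2 | h2
      · exact hy0 h2
      · exact hx (sub_eq_zero.mp h2).symm
    rcases lt_or_gt_of_ne hne with h | h
    · obtain ⟨n, hn⟩ := hsq (-(y • x)) hyx.neg
      refine ⟨n, -(y • x), hyx.neg, ?_, hn⟩
      rw [map_neg]
      push_cast at h ⊢
      linarith
    · obtain ⟨n, hn⟩ := hsq (y • x) hyx
      exact ⟨n, y • x, hyx, h, hn⟩
  obtain ⟨w0, hw0, hδ0, hn0⟩ := Nat.find_spec hex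
  have hmin : ∀ (n : ℕ) (w : K), IsIntegral ℤ w → 0 < ((w - s w : K) : ℝ) →
      ((w - s w : K) : ℝ) ^ 2 = n → Nat.find hex ≤ n :=
    fun n w h1 h2 h3 => Nat.find_min' hex ⟨w, h1, h2, h3⟩
  obtain ⟨n0, hn0e⟩ : ∃ n0, n0 = Nat.find hex := ⟨_, rfl⟩
  rw [← hn0e] at hn0 hmin
  -- the trace of w0
  obtain ⟨T, hT⟩ := hfix (w0 + s w0) (hw0.add (hint w0 hw0)) (by rw [map_add, hss, add_comm])
  obtain ⟨w, hwdef⟩ : ∃ w : K, w = w0 - ((T / 2 : ℤ) : K) := ⟨_, rfl⟩
  have hsw : s w = s w0 - ((T / 2 : ℤ) : K) := by rw [hwdef, map_sub, map_intCast]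
  have hw : IsIntegral ℤ w := by
    rw [hwdef]
    exact hw0.sub (isIntegral_algebraMap (R := ℤ) (x := T / 2))
  obtain ⟨W, hW⟩ : ∃ W : ℝ, W = (w : ℝ) := ⟨_, rfl⟩
  obtain ⟨V, hV⟩ : ∃ V : ℝ, V = ((s w : K) : ℝ) := ⟨_, rfl⟩
  obtain ⟨τ, hτ⟩ : ∃ τ : ℤ, τ = T % 2 := ⟨_, rfl⟩
  have hτ01 : τ = 0 ∨ τ = 1 := by omega
  have htr : W + V = τ := by
    have e1 : W = (w0 : ℝ) - ((T / 2 : ℤ) : ℝ) := by rw [hW, hwdef]; push_cast; ring
    have e2 : V = ((s w0 : K) : ℝ) - ((T / 2 : ℤ) : ℝ) := by rw [hV, hsw]; push_cast; ring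
    have e3 : (w0 : ℝ) + ((s w0 : K) : ℝ) = T := by rw [← hT]; push_cast; ring
    have e4 : (T : ℝ) = 2 * ((T / 2 : ℤ) : ℝ) + (τ : ℝ) := by
      have : T = 2 * (T / 2) + τ := by omega
      exact_mod_cast this
    linarith
  obtain ⟨δ, hδ⟩ : ∃ δ : ℝ, δ = W - V := ⟨_, rfl⟩
  have hδ' : ((w0 - s w0 : K) : ℝ) = δ := by
    have e1 : W = (w0 : ℝ) - ((T / 2 : ℤ) : ℝ) := by rw [hW, hwdef]; push_cast; ring
    have e2 : V = ((s w0 : K) : ℝ) - ((T / 2 : ℤ) : ℝ) := by rw [hV, hsw]; push_cast; ring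
    rw [hδ, e1, e2]
    push_cast
    ring
  rw [hδ'] at hδ0 hn0
  -- the norm of w
  obtain ⟨M, hM⟩ := hfix (w * s w) (hw.mul (hint w hw)) (by rw [map_mul, hss, mul_comm])
  have hM' : W * V = M := by rw [hW, hV, ← hM]; push_cast; ring
  have hn1 : 1 ≤ n0 := by
    rcases Nat.eq_zero_or_pos n0 with h | h
    · rw [h] at hn0
      have : 0 < δ ^ 2 := by positivity
      rw [hn0] at this
      simp at this
    · exact h
  have hrel : (n0 : ℤ) = τ ^ 2 - 4 * M := by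
    have : (n0 : ℝ) = (τ : ℝ) ^ 2 - 4 * M := by
      rw [← hn0, ← htr, ← hM', hδ]
      ring
    exact_mod_cast this
  have hτsq : τ ^ 2 = τ := by rcases hτ01 with h | h <;> rw [h] <;> norm_num
  have hM0 : M ≤ 0 := by
    rw [hτsq] at hrel
    omega
  have hMne : M ≠ 0 := by
    intro h
    rw [h] at hrel hM'
    have h1 : τ = 1 := by
      rcases hτ01 with h' | h'
      · rw [h'] at hrel; omega
      · exact h'
    rw [h1] at htr
    have hVW : W = 0 ∨ V = 0 := by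
      rw [Int.cast_zero, mul_eq_zero] at hM'
      exact hM'
    rcases hVW with h2 | h2
    · rw [h2, zero_add] at htr
      rw [h2, htr] at hδ
      norm_num at hδ
      linarith
    · have h3 : s w = 0 := aux1 K _ (by rw [← hV, h2])
      have h4 : w = 0 := by
        have := hss w
        rw [h3, map_zero] at this
        exact this.symm
      rw [h4] at hW
      rw [hW, h2] at htr
      norm_num at htr
  have hN : 1 ≤ (-M).toNat := by omega
  have hNc : (((-M).toNat : ℕ) : ℝ) = -(M : ℝ) := by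
    have : (((-M).toNat : ℤ) : ℝ) = ((-M : ℤ) : ℝ) := by rw [Int.toNat_of_nonneg (by omega)]
    rw [Int.cast_neg] at this
    exact_mod_cast this
  have hkc : ((τ.toNat : ℕ) : ℝ) = (τ : ℝ) := by
    have : ((τ.toNat : ℤ) : ℝ) = ((τ : ℤ) : ℝ) := by rw [Int.toNat_of_nonneg (by omega)]
    exact_mod_cast this
  have hτ0 : (0 : ℝ) ≤ (τ : ℝ) := by rcases hτ01 with h | h <;> rw [h] <;> norm_num
  have hWe : W = (τ + δ) / 2 := by rw [← htr, hδ]; ring
  have hWpos : 0 < W := by rw [hWe]; linarith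
  refine ⟨τ.toNat, (-M).toNat, W, δ, hN, hWpos, hδ0, ?_, ?_, ?_⟩
  · rw [hkc, hNc, ← htr, ← hM']
    ring
  · rw [hkc, hNc, ← htr, ← hM', hδ]
    ring
  intro β hβ
  obtain ⟨hβi, hβ0, hβc⟩ := hβ
  obtain ⟨B, hB⟩ : ∃ B : ℝ, B = (β : ℝ) := ⟨_, rfl⟩
  obtain ⟨B', hB'⟩ : ∃ B' : ℝ, B' = ((s β : K) : ℝ) := ⟨_, rfl⟩
  have hβs := hβc s
  rw [← hB, ← hB', abs_le] at hβs
  -- β - s β is a multiple of δ
  obtain ⟨j, hj⟩ : ∃ j : ℤ, j = ⌊(B - B') / δ⌋ := ⟨_, rfl⟩
  have hj1 : (j : ℝ) * δ ≤ B - B' := by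
    have := Int.floor_le ((B - B') / δ)
    rw [← hj, le_div_iff₀ hδ0] at this
    exact this
  have hj2 : B - B' < (j : ℝ) * δ + δ := by
    have := Int.lt_floor_add_one ((B - B') / δ)
    rw [← hj, div_lt_iff₀ hδ0] at this
    linarith
  obtain ⟨u, hu⟩ : ∃ u : K, u = β - (j : K) * w := ⟨_, rfl⟩
  have hui : IsIntegral ℤ u := by
    rw [hu]
    exact hβi.sub ((isIntegral_algebraMap (R := ℤ) (x := j)).mul hw)
  have hsu : s u = s β - (j : K) * s w := by rw [hu, map_sub, map_mul, map_intCast]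
  have hur : ((u - s u : K) : ℝ) = (B - B') - j * δ := by
    rw [hsu, hu, hδ, hW, hV, hB, hB']
    push_cast
    ring
  have hzero : (B - B') - j * δ = 0 := by
    by_contra hne
    have hpos : 0 < ((u - s u : K) : ℝ) := by
      rw [hur]
      exact lt_of_le_of_ne (by linarith) (Ne.symm hne)
    obtain ⟨n, hn⟩ := hsq u hui
    have h1 := hmin n u hui hpos hn
    have h2 : (n0 : ℝ) ≤ n := by exact_mod_cast h1
    rw [← hn, ← hn0, hur] at h2
    rw [hur] at hpos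
    have h3 : (B - B') - j * δ < δ := by linarith
    nlinarith
  have hj0 : 0 ≤ j := by
    by_contra hc
    have h1 : (j : ℝ) ≤ -1 := by
      have : j ≤ -1 := by omega
      exact_mod_cast this
    have h2 : (j : ℝ) * δ ≤ -1 * δ := mul_le_mul_of_nonneg_right h1 hδ0.le
    linarith [hβs.2]
  obtain ⟨a, ha⟩ := hfix u hui (by
    have h1 : ((u - s u : K) : ℝ) = 0 := by rw [hur, hzero]
    exact (sub_eq_zero.mp (aux1 K _ h1)).symm)
  have hae : B - j * W = a := by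
    rw [← ha, hu, hB, hW]
    push_cast
    ring
  have hsum : 0 ≤ 2 * (a : ℝ) + j * τ := by
    have : B + B' = 2 * (a : ℝ) + j * τ := by
      rw [← htr]
      have h1 : B' = B - j * δ := by linarith
      rw [h1, hδ]
      linarith
    rw [← this]
    linarith [hβs.1]
  have hjc : ((j.toNat : ℕ) : ℝ) = (j : ℝ) := by
    have : ((j.toNat : ℤ) : ℝ) = ((j : ℤ) : ℝ) := by rw [Int.toNat_of_nonneg hj0]
    exact_mod_cast this
  rcases le_or_gt 0 a with ha0 | ha0
  · have hac : ((a.toNat : ℕ) : ℝ) = (a : ℝ) := by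
      have : ((a.toNat : ℤ) : ℝ) = ((a : ℤ) : ℝ) := by rw [Int.toNat_of_nonneg ha0]
      exact_mod_cast this
    refine ⟨a.toNat, 0, j.toNat, ?_⟩
    rw [hac, hjc, ← hB]
    push_cast
    linarith
  · have hτ1 : τ = 1 := by
      rcases hτ01 with h | h
      · exfalso
        rw [h] at hsum
        have : (a : ℝ) < 0 := by exact_mod_cast ha0
        norm_num at hsum
        linarith
      · exact h
    rw [hτ1] at hsum htr
    have hja : 0 ≤ j + 2 * a := by
      have : (0 : ℝ) ≤ ((j + 2 * a : ℤ) : ℝ) := by push_cast; push_cast at hsum; linarith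
      exact_mod_cast this
    have hac : (((-a).toNat : ℕ) : ℝ) = -(a : ℝ) := by
      have : (((-a).toNat : ℤ) : ℝ) = ((-a : ℤ) : ℝ) := by rw [Int.toNat_of_nonneg (by omega)]
      rw [Int.cast_neg] at this
      exact_mod_cast this
    have hcc : (((j + 2 * a).toNat : ℕ) : ℝ) = (j : ℝ) + 2 * a := by
      calc (((j + 2 * a).toNat : ℕ) : ℝ) = (((j + 2 * a).toNat : ℤ) : ℝ) := by norm_cast
        _ = ((j + 2 * a : ℤ) : ℝ) := by rw [Int.toNat_of_nonneg hja]
        _ = (j : ℝ) + 2 * a := by push_cast; ring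
    refine ⟨0, (-a).toNat, (j + 2 * a).toNat, ?_⟩
    rw [hac, hcc, ← hB]
    have h2 : δ = 2 * W - 1 := by rw [hδ]; push_cast at htr; linarith
    rw [h2]
    push_cast
    linear_combination hae

theorem hQUA : StQUA := by
  intro K hfd hgal hrk
  have hcard : Nat.card (K ≃ₐ[ℚ] K) = Module.finrank ℚ K := IsGalois.card_aut_eq_finrank ℚ K
  have hpos : 0 < Module.finrank ℚ K := Module.finrank_pos
  by_cases hs : ∃ s : K ≃ₐ[ℚ] K, s ≠ 1
  · obtain ⟨s, hs⟩ := hs
    refine two K s hs fun t => ?_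
    by_contra hc
    push Not at hc
    have hinj : Function.Injective (![1, s, t] : Fin 3 → (K ≃ₐ[ℚ] K)) := by
      intro i j hij
      fin_cases i <;> fin_cases j <;> simp_all
    have h3 : Nat.card (Fin 3) ≤ Nat.card (K ≃ₐ[ℚ] K) := Nat.card_le_card_of_injective _ hinj
    rw [Nat.card_fin, hcard] at h3
    omega
  · push Not at hs
    refine ⟨0, 1, 1, 2, le_refl _, one_pos, two_pos, by norm_num, by norm_num, fun β hβ => ?_⟩
    obtain ⟨m, hm⟩ := int_of_fixed K β hβ.1 (fun t => by rw [hs t]; rfl)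
    have h0 : (0 : ℝ) < m := by rw [← hm]; exact hβ.2.1
    have h0' : 0 < m := by exact_mod_cast h0
    refine ⟨m.toNat, 0, 0, ?_⟩
    rw [hm]
    have : ((m.toNat : ℤ) : ℝ) = ((m : ℤ) : ℝ) := by rw [Int.toNat_of_nonneg h0'.le]
    push_cast at this ⊢
    linarith

end Pool.Agent.Helper62.FG
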